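import Pool.Agent.helper99.PLR.Spec

/-! # plr: row A1 -/

set_option autoImplicit false

open scoped Classical

namespace Pool.Agent.PLR

open Finset
open Pool.Agent.helper65.HC (V IsEig IsTop lam)
open Pool.Agent.helper9.HQ (Fam Dn E N Le Eig lk)

noncomputable section

theorem A1_ext {d : ℕ} (k : ℕ) (V : Fam d) (hV : Dn V) (hk : ∀ x ∈ V, x.card ≤ k)
    (f g : Finset (Fin d) → ℝ) (hg : ∀ x ∈ V, g x = f x) (hg0 : ∀ x, x ∉ V → g x = 0) :
    N (ball k d) g = N V f ∧ E (ball k d) g = E V f := by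
  have hsub : V ⊆ ball k d := fun x hx => mem_filter.2 ⟨mem_univ _, hk x hx⟩
  constructor
  · unfold N
    rw [← sum_subset hsub fun x _ hx => by rw [hg0 x hx]; ring]
    exact sum_congr rfl fun x hx => by rw [hg x hx]
  · unfold E
    rw [← sum_subset hsub fun x _ hx => sum_eq_zero fun i _ => by rw [hg0 x hx, zero_mul]]
    congr 1
    refine sum_congr rfl fun x hx => sum_congr rfl fun i _ => ?_
    rw [hg x hx, hg _ (hV x hx _ (erase_subset _ _))]

theorem A1 (hWTS : WTS_stmt) (hGS : GS_stmt) (hGAP : GAP_stmt) : A1_stmt := by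
  intro k
  obtain ⟨c0, Cw, hc0, hCw, hW⟩ := hWTS k
  obtain ⟨C, hC, hG⟩ := hGAP k
  set D : ℝ := 2 * C + 2 * Cw * (C / c0) with hD
  have hDpos : 0 < D := by positivity
  refine ⟨min (1 / 2) (1 / D), lt_min (by norm_num) (by positivity), min_le_left _ _, ?_⟩
  intro d hd V tau hV hVk ht0 ht1 hlev f
  obtain ⟨w0, wpos, wz, wrec, wrat, wk, wkC, wN⟩ := hW d hd
  have hdpos : (0 : ℝ) < d := by
    have : 0 < d := by omega
    exact_mod_cast this
  have hs : 0 < √(d : ℝ) := Real.sqrt_pos.2 hdpos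
  by_cases hne : ∅ ∈ V
  swap
  · have hVe : V = ∅ := by
      rw [Finset.eq_empty_iff_forall_notMem]
      intro x hx
      exact hne (hV x hx ∅ (empty_subset _))
    rw [hVe]
    unfold E N
    rw [sum_empty, sum_empty]
    simp
  set g : Finset (Fin d) → ℝ := fun x => if x ∈ V then f x else 0 with hg
  have hg1 : ∀ x ∈ V, g x = f x := fun x hx => by
    simp only [hg]
    rw [if_pos hx]
  have hg0 : ∀ x, x ∉ V → g x = 0 := fun x hx => by
    simp only [hg]
    rw [if_neg hx]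
  obtain ⟨eN, eE⟩ := A1_ext k V hV hVk f g hg1 hg0
  have h1 := hGS k d hd g
  have h2 := hG d hd g
  rw [eN, eE] at h1 h2
  rw [hg1 ∅ hne] at h2
  set Del : ℝ := hz (k + 1) * √(d : ℝ) * N V f - E V f with hDel
  have hDel0 : 0 ≤ Del := by
    refine le_trans (sum_nonneg fun x hx => sum_nonneg fun i hi => ?_) h1
    have hxk : x.card ≤ k := (mem_filter.1 hx).2
    exact mul_nonneg (mul_nonneg (wpos _ hxk).le (wpos _ (by omega)).le) (sq_nonneg _)
  -- the k-sets outside V
  have hcnt : tau * (d.choose k : ℝ) * (f ∅ * wt k d k) ^ 2 ≤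
      ∑ x ∈ ball k d, (g x - f ∅ * wt k d x.card) ^ 2 := by
    set M : Fam d := (powersetCard k univ).filter (fun x => x ∉ V) with hM
    have hMs : M ⊆ ball k d := by
      intro x hx
      rw [hM, mem_filter, mem_powersetCard] at hx
      exact mem_filter.2 ⟨mem_univ _, hx.1.2.le⟩
    have hMc : tau * (d.choose k : ℝ) ≤ (M.card : ℝ) := by
      have h3 : (powersetCard k (univ : Finset (Fin d))).card = d.choose k := by
        rw [card_powersetCard, card_univ, Fintype.card_fin]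
      have h4 := card_filter_add_card_filter_not (s := powersetCard k (univ : Finset (Fin d)))
        (fun x => x ∈ V)
      have h5 : (powersetCard k (univ : Finset (Fin d))).filter (fun x => x ∈ V) =
          V.filter (fun x => x.card = k) := by
        ext x
        simp only [mem_filter, mem_powersetCard]
        constructor
        · rintro ⟨⟨-, a⟩, b⟩
          exact ⟨b, a⟩
        · rintro ⟨a, b⟩
          exact ⟨⟨subset_univ _, b⟩, a⟩
      rw [h5, h3] at h4
      have h6 : (lev k V : ℝ) + (M.card : ℝ) = (d.choose k : ℝ) := by exact_mod_cast h4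
      linarith
    calc tau * (d.choose k : ℝ) * (f ∅ * wt k d k) ^ 2 ≤ (M.card : ℝ) * (f ∅ * wt k d k) ^ 2 :=
          mul_le_mul_of_nonneg_right hMc (sq_nonneg _)
      _ = ∑ x ∈ M, (g x - f ∅ * wt k d x.card) ^ 2 := by
          rw [← nsmul_eq_mul, ← sum_const]
          refine sum_congr rfl fun x hx => ?_
          rw [hM, mem_filter, mem_powersetCard] at hx
          rw [hg0 x hx.2, hx.1.2]
          ring
      _ ≤ _ := sum_le_sum_of_subset_of_nonneg hMs fun _ _ _ => sq_nonneg _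
  have hf0 : tau * (f ∅) ^ 2 ≤ C / c0 * (Del / √(d : ℝ)) := by
    have h3 := hcnt.trans h2
    have h4 : c0 * (tau * (f ∅) ^ 2) ≤ tau * (d.choose k : ℝ) * (f ∅ * wt k d k) ^ 2 := by
      have h5 : 0 ≤ tau * (f ∅) ^ 2 := mul_nonneg ht0 (sq_nonneg _)
      calc c0 * (tau * (f ∅) ^ 2) ≤ ((d.choose k : ℝ) * wt k d k ^ 2) * (tau * (f ∅) ^ 2) :=
            mul_le_mul_of_nonneg_right wk h5
        _ = _ := by ring
    have h5 := h4.trans h3
    have h6 : C / c0 * (Del / √(d : ℝ)) = C / √(d : ℝ) * Del / c0 := by field_simp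
    rw [h6, le_div_iff₀ hc0]
    linarith
  have hN : N V f ≤ 2 * (C / √(d : ℝ) * Del) + 2 * (f ∅) ^ 2 * Cw := by
    rw [← eN]
    have h3 : N (ball k d) g ≤ ∑ x ∈ ball k d, (2 * (g x - f ∅ * wt k d x.card) ^ 2 +
        2 * (f ∅) ^ 2 * wt k d x.card ^ 2) := by
      unfold N
      refine sum_le_sum fun x _ => ?_
      nlinarith [sq_nonneg (g x - 2 * (f ∅ * wt k d x.card))]
    rw [sum_add_distrib, ← mul_sum, ← mul_sum] at h3
    have h4 : ∑ x ∈ ball k d, wt k d x.card ^ 2 ≤ Cw := wN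
    have h5 : 2 * (f ∅) ^ 2 * ∑ x ∈ ball k d, wt k d x.card ^ 2 ≤ 2 * (f ∅) ^ 2 * Cw :=
      mul_le_mul_of_nonneg_left h4 (by positivity)
    linarith
  have hkey : tau * N V f ≤ D * (Del / √(d : ℝ)) := by
    have h3 := mul_le_mul_of_nonneg_left hN ht0
    have h4 : 0 ≤ Del / √(d : ℝ) := div_nonneg hDel0 hs.le
    have h5 : tau * (2 * (C / √(d : ℝ) * Del)) ≤ 2 * C * (Del / √(d : ℝ)) := by
      have e : tau * (2 * (C / √(d : ℝ) * Del)) = tau * (2 * C * (Del / √(d : ℝ))) := by ring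
      rw [e]
      exact mul_le_of_le_one_left (by positivity) ht1
    have h6 : tau * (2 * (f ∅) ^ 2 * Cw) ≤ 2 * Cw * (C / c0) * (Del / √(d : ℝ)) := by
      calc tau * (2 * (f ∅) ^ 2 * Cw) = 2 * Cw * (tau * (f ∅) ^ 2) := by ring
        _ ≤ 2 * Cw * (C / c0 * (Del / √(d : ℝ))) := mul_le_mul_of_nonneg_left hf0 (by positivity)
        _ = _ := by ring
    rw [hD]
    calc tau * N V f ≤ tau * (2 * (C / √(d : ℝ) * Del) + 2 * (f ∅) ^ 2 * Cw) := h3
      _ = tau * (2 * (C / √(d : ℝ) * Del)) + tau * (2 * (f ∅) ^ 2 * Cw) := by ring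
      _ ≤ 2 * C * (Del / √(d : ℝ)) + 2 * Cw * (C / c0) * (Del / √(d : ℝ)) := add_le_add h5 h6
      _ = _ := by ring
  have hN0 : 0 ≤ N V f := sum_nonneg fun _ _ => sq_nonneg _
  have h7 : min (1 / 2) (1 / D) * tau * √(d : ℝ) * N V f ≤ Del := by
    have h8 : min (1 / 2) (1 / D) * (tau * √(d : ℝ) * N V f) ≤ 1 / D * (tau * √(d : ℝ) * N V f) :=
      mul_le_mul_of_nonneg_right (min_le_right _ _) (by positivity)
    have h9 : tau * √(d : ℝ) * N V f ≤ D * Del := by
      have := mul_le_mul_of_nonneg_left hkey hs.le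
      have e : √(d : ℝ) * (D * (Del / √(d : ℝ))) = D * Del := by field_simp
      rw [e] at this
      linarith
    have h10 : 1 / D * (tau * √(d : ℝ) * N V f) ≤ Del := by
      rw [one_div_mul_eq_div, div_le_iff₀ hDpos]
      linarith
    calc _ = min (1 / 2) (1 / D) * (tau * √(d : ℝ) * N V f) := by ring
      _ ≤ Del := h8.trans h10
  rw [hDel] at h7
  calc E V f ≤ hz (k + 1) * √(d : ℝ) * N V f - min (1 / 2) (1 / D) * tau * √(d : ℝ) * N V f := by
        linarith
    _ = _ := by ring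

end

end Pool.Agent.PLR
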