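import Pool.Agent.helper99.PLR.Spec

set_option autoImplicit false

namespace Pool.Agent.PLR

open Pool.Agent.helper9

theorem asm
    (hDC : HQ.DC_stmt) (hEV : HQ.EV_stmt) (hEMB : HX.EMB_stmt)
    (hCLE : HLR.CLE_stmt) (hSPL : HLR.SPL_stmt) (hQFM : HLR.QFM_stmt) (hDSB : HLR.DSB_stmt)
    (HRM : HRM_stmt)
    (HZP : HRM_stmt → HZP_stmt)
    (WTS : HRM_stmt → HZP_stmt → WTS_stmt)
    (GS : WTS_stmt → GS_stmt)
    (GAP : WTS_stmt → GS_stmt → GAP_stmt)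
    (A1 : WTS_stmt → GS_stmt → GAP_stmt → A1_stmt)
    (BQ : WTS_stmt → BQ_stmt)
    (LCK : LCK_stmt)
    (DSK : HQ.EV_stmt → DSK_stmt)
    (BIP : BIP_stmt)
    (CTK : CTK_stmt)
    (EIE : EIE_stmt)
    (CLA : HQ.EV_stmt → HZP_stmt → A1_stmt → LCK_stmt → DSK_stmt → BIP_stmt → CTK_stmt → CLA_stmt)
    (CLB : HQ.EV_stmt → HZP_stmt → WTS_stmt → GS_stmt → GAP_stmt → A1_stmt → LCK_stmt → BIP_stmt → CTK_stmt → CLA_stmt → CLB_stmt)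
    (UPA : UPA_stmt)
    (CLK : CLK_stmt)
    (PRK : PRK_stmt)
    (CRA : UPA_stmt → PRK_stmt → HLR.DSB_stmt → CRA_stmt)
    (CBA : CLA_stmt → CLB_stmt → UPA_stmt → CLK_stmt → CRA_stmt → CBA_stmt)
    (ASA : CBA_stmt → HLR.CLE_stmt → HLR.SPL_stmt → HLR.QFM_stmt → ASA_stmt)
    (LBK : BQ_stmt → WTS_stmt → HX.EMB_stmt → LBK_stmt)
    (FNA : HZP_stmt → HQ.DC_stmt → ASA_stmt → LBK_stmt → FNA_stmt)
    (LCW : LCW_stmt)
    (CSZ : UPA_stmt → PRK_stmt → CSZ_stmt)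
    (ZB : HZP_stmt → CLA_stmt → UPA_stmt → CLK_stmt → LCW_stmt → CSZ_stmt → ZB_stmt)
    (STS : STS_stmt)
    (YMQ : YMQ_stmt)
    (BST : HZP_stmt → CLA_stmt → CLB_stmt → UPA_stmt → CLK_stmt → CSZ_stmt → ZB_stmt → STS_stmt → YMQ_stmt → EIE_stmt →
      HLR.CLE_stmt → HLR.SPL_stmt → BST_stmt)
    (LNN : LNN_stmt)
    (UBG : HQ.EV_stmt → ASA_stmt → BST_stmt → LNN_stmt → UBG_stmt)
    (FNB : HZP_stmt → HQ.DC_stmt → UBG_stmt → LBK_stmt → LNN_stmt → FNB_stmt) :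
    FNA_stmt ∧ FNB_stmt := by
  have hHZP := HZP HRM
  have hWTS := WTS HRM hHZP
  have hGS := GS hWTS
  have hGAP := GAP hWTS hGS
  have hA1 := A1 hWTS hGS hGAP
  have hBQ := BQ hWTS
  have hDSK := DSK hEV
  have hCLA := CLA hEV hHZP hA1 LCK hDSK BIP CTK
  have hCLB := CLB hEV hHZP hWTS hGS hGAP hA1 LCK BIP CTK hCLA
  have hCRA := CRA UPA PRK hDSB
  have hCBA := CBA hCLA hCLB UPA CLK hCRA
  have hASA := ASA hCBA hCLE hSPL hQFM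
  have hLBK := LBK hBQ hWTS hEMB
  have hCSZ := CSZ UPA PRK
  have hZB := ZB hHZP hCLA UPA CLK LCW hCSZ
  have hBST := BST hHZP hCLA hCLB UPA CLK hCSZ hZB STS YMQ EIE hCLE hSPL
  have hUBG := UBG hEV hASA hBST LNN
  exact ⟨FNA hHZP hDC hASA hLBK, FNB hHZP hDC hUBG hLBK LNN⟩

end Pool.Agent.PLR
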