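import Pool.Agent.helper99.PLR.Spec

/-! # plr: the uniform form of the two parts -/

set_option autoImplicit false

open scoped Classical

namespace Pool.Agent.PLR

open Finset
open Pool.Agent.helper65.HC (V IsEig IsTop lam)

noncomputable section

/-- the final statement -/
def FNC_stmt : Prop := ∀ k : ℕ, 1 ≤ k → ∀ eta : ℝ, 0 < eta → ∃ K₀ : ℕ, ∀ K₁ ≥ K₀, ∃ (C th : ℝ) (d₀ : ℕ),
  0 < C ∧ 0 < th ∧ ∀ d ≥ d₀, ∀ m : ℕ, d.choose k ≤ m → (m : ℝ) ≤ th * d * (d.choose k : ℝ) → ∀ K : ℕ, K = m / d.choose k →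
  IsGreatest {t | ∃ U : Finset (V d), U.card = m ∧ IsTop U t} (lam d m) ∧
  lam K K - (if K < K₁ then C / √d else eta * √K) ≤ lam d m - hz (k + 1) * √d ∧
  lam d m - hz (k + 1) * √d ≤
    lam K K + (if K < K₁ then C * (d.choose k : ℝ) / (√d * ((K + 1) * (d.choose k : ℝ) - m)) else eta * √K)

theorem FNC_sqrt (eta K r : ℝ) (he : 0 < eta) (hK : 2 ≤ K) (hKe : 16 ≤ eta * K) (h1 : K ≤ r) (h2 : r < K + 1) :
    |√r - √(K - 1)| + eta / 4 * √r ≤ eta * √K := by
  have hK0 : 0 < √K := Real.sqrt_pos.2 (by linarith)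
  have hKs : √K ^ 2 = K := Real.sq_sqrt (by linarith)
  have a1 : √(K - 1) ≤ √r := Real.sqrt_le_sqrt (by linarith)
  have a2 : √r ≤ √K + 1 / √K := by
    rw [Real.sqrt_le_left (by positivity)]
    have e : (√K + 1 / √K) ^ 2 = √K ^ 2 + 2 + (1 / √K) ^ 2 := by
      field_simp
      ring
    rw [e, hKs]
    nlinarith [sq_nonneg (1 / √K)]
  have a3 : √K - 1 / √K ≤ √(K - 1) := by
    apply Real.le_sqrt_of_sq_le
    have e : (√K - 1 / √K) ^ 2 = √K ^ 2 - 2 + 1 / (√K ^ 2) := by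
      field_simp
      ring
    rw [e, hKs]
    have : 1 / K ≤ 1 := by
      rw [div_le_one (by linarith)]
      linarith
    linarith
  have a4 : 1 / √K ≤ eta / 16 * √K := by
    rw [div_le_iff₀ hK0]
    nlinarith
  have a5 : √r ≤ 2 * √K := by
    have : 1 / √K ≤ √K := by
      rw [div_le_iff₀ hK0]
      nlinarith
    linarith
  rw [abs_of_nonneg (by linarith)]
  nlinarith

theorem FNC (hFNA : FNA_stmt) (hFNB : FNB_stmt) (hLNN : LNN_stmt) : FNC_stmt := by
  intro k hk eta heta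
  obtain ⟨A, th, d1, hA, hth, hB⟩ := hFNB k (eta / 4) hk (by linarith)
  obtain ⟨n0, hn0, hL⟩ := hLNN
  refine ⟨max (max ⌈A⌉₊ n0) (max ⌈16 / eta⌉₊ 2), ?_⟩
  intro K₁ hK₁
  have hF : ∀ K : ℕ, ∃ (C : ℝ) (d₀ : ℕ), 0 < C ∧ (1 ≤ K → ∀ d ≥ d₀, ∀ m : ℕ,
      K * d.choose k ≤ m → m < (K + 1) * d.choose k →
      IsGreatest {t | ∃ U : Finset (V d), U.card = m ∧ IsTop U t} (lam d m) ∧
      lam K K - C / √d ≤ lam d m - hz (k + 1) * √d ∧
      lam d m - hz (k + 1) * √d ≤ lam K K + C * (d.choose k : ℝ) / (√d * ((K + 1) * (d.choose k : ℝ) - m))) := by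
    intro K
    by_cases h : 1 ≤ K
    · obtain ⟨C, d₀, h1, h2⟩ := hFNA k K hk h
      exact ⟨C, d₀, h1, fun _ => h2⟩
    · exact ⟨1, 0, one_pos, fun h' => absurd h' h⟩
  choose Cf df hCf hf using hF
  set C : ℝ := 1 + ∑ K ∈ range K₁, Cf K with hC
  have hCK : ∀ K < K₁, Cf K ≤ C := by
    intro K hK
    have := single_le_sum (f := Cf) (fun i _ => (hCf i).le) (mem_range.2 hK)
    rw [hC]
    linarith
  have hC0 : 0 < C := by
    have : 0 ≤ ∑ K ∈ range K₁, Cf K := sum_nonneg fun i _ => (hCf i).le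
    rw [hC]
    linarith
  have hdK : ∀ K < K₁, df K ≤ (range K₁).sup df := fun K hK => le_sup (mem_range.2 hK)
  refine ⟨C, th, max (max d1 ((range K₁).sup df)) (k + 1), hC0, hth, ?_⟩
  intro d hd m hm1 hm2 K hKm
  have hd1 : d1 ≤ d := (le_max_left _ _).trans ((le_max_left _ _).trans hd)
  have hd2 : (range K₁).sup df ≤ d := (le_max_right _ _).trans ((le_max_left _ _).trans hd)
  have hd3 : k + 1 ≤ d := (le_max_right _ _).trans hd
  have hb : 0 < d.choose k := Nat.choose_pos (by omega)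
  have hbr : (0 : ℝ) < (d.choose k : ℝ) := by exact_mod_cast hb
  have hdr : (0 : ℝ) < d := by
    have : 0 < d := by omega
    exact_mod_cast this
  have hs : 0 < √(d : ℝ) := Real.sqrt_pos.2 hdr
  have hK1 : 1 ≤ K := by
    rw [hKm]
    exact (Nat.one_le_div_iff hb).2 hm1
  have hKm1 : K * d.choose k ≤ m := by
    rw [hKm]
    exact Nat.div_mul_le_self m _
  have hKm2 : m < (K + 1) * d.choose k := by
    rw [hKm]
    have := Nat.lt_div_mul_add hb (a := m)
    rw [Nat.add_mul, one_mul]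
    omega
  have ht : 0 < ((K : ℝ) + 1) * (d.choose k : ℝ) - m := by
    have : (m : ℝ) < ((K : ℝ) + 1) * (d.choose k : ℝ) := by exact_mod_cast hKm2
    linarith
  by_cases hKK : K < K₁
  · obtain ⟨g1, g2, g3⟩ := hf K hK1 d ((hdK K hKK).trans hd2) m hKm1 hKm2
    refine ⟨g1, ?_, ?_⟩
    · rw [if_pos hKK]
      have : Cf K / √(d : ℝ) ≤ C / √(d : ℝ) := div_le_div_of_nonneg_right (hCK K hKK) hs.le
      linarith
    · rw [if_pos hKK]
      refine g3.trans ?_
      have : Cf K * (d.choose k : ℝ) / (√(d : ℝ) * ((K + 1) * (d.choose k : ℝ) - m)) ≤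
          C * (d.choose k : ℝ) / (√(d : ℝ) * ((K + 1) * (d.choose k : ℝ) - m)) :=
        div_le_div_of_nonneg_right (mul_le_mul_of_nonneg_right (hCK K hKK) hbr.le) (by positivity)
      linarith
  · rw [not_lt] at hKK
    have hKA : ⌈A⌉₊ ≤ K := (le_max_left _ _).trans ((le_max_left _ _).trans (hK₁.le.trans hKK))
    have hKn : n0 ≤ K := (le_max_right _ _).trans ((le_max_left _ _).trans (hK₁.le.trans hKK))
    have hKe : ⌈16 / eta⌉₊ ≤ K := (le_max_left _ _).trans ((le_max_right _ _).trans (hK₁.le.trans hKK))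
    have hK2 : 2 ≤ K := (le_max_right _ _).trans ((le_max_right _ _).trans (hK₁.le.trans hKK))
    have hAr : A ≤ K := (Nat.ceil_le.1 hKA)
    have hKer : 16 / eta ≤ K := (Nat.ceil_le.1 hKe)
    have hK2r : (2 : ℝ) ≤ K := by exact_mod_cast hK2
    have hm1r : (K : ℝ) * (d.choose k : ℝ) ≤ m := by exact_mod_cast hKm1
    obtain ⟨g1, g2⟩ := hB d hd1 m ((mul_le_mul_of_nonneg_right hAr hbr.le).trans hm1r) hm2
    obtain ⟨l1, l2⟩ := hL K hKn
    have hlam : lam K K = √((K : ℝ) - 1) := by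
      rw [← l2, Real.sqrt_sq l1]
    have hr1 : (K : ℝ) ≤ (m : ℝ) / (d.choose k : ℝ) := by
      rw [le_div_iff₀ hbr]
      exact hm1r
    have hr2 : (m : ℝ) / (d.choose k : ℝ) < K + 1 := by
      rw [div_lt_iff₀ hbr]
      linarith
    have hke : 16 ≤ eta * K := by
      rw [div_le_iff₀ heta] at hKer
      linarith
    have hq := FNC_sqrt eta K _ heta hK2r hke hr1 hr2
    have hg := abs_le.1 g2
    have hq2 := le_abs_self (√((m : ℝ) / (d.choose k : ℝ)) - √((K : ℝ) - 1))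
    have hq3 := neg_abs_le (√((m : ℝ) / (d.choose k : ℝ)) - √((K : ℝ) - 1))
    refine ⟨g1, ?_, ?_⟩
    · rw [if_neg (not_lt.2 hKK), hlam]
      linarith
    · rw [if_neg (not_lt.2 hKK), hlam]
      linarith

end

end Pool.Agent.PLR
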