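import Pool.Agent.helper99.PLR.Spec
import Pool.Agent.helper9.HER.Hermite

/-! # plr: rows HRM, HZP -/

set_option autoImplicit false

open scoped Classical

namespace Pool.Agent.PLR

open Finset

theorem HRM_he (n : ℕ) (x : ℝ) : he n x = Pool.Agent.helper9.HER.He n x := rfl

theorem HRM : HRM_stmt := by
  refine ⟨fun x => ?_, fun x => ?_, fun n x => ?_⟩
  · rw [HRM_he, Pool.Agent.helper9.HER.He_zero]
  · rw [HRM_he, Pool.Agent.helper9.HER.He_one]
  · rw [HRM_he, HRM_he, HRM_he, Pool.Agent.helper9.HER.He_succ]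

theorem HZP_top (k : ℕ) (h : ℝ) (hT : Pool.Agent.helper9.HER.Top k h) : hz (k + 1) = h :=
  (Pool.Agent.helper9.HER.Top_greatest hT).csSup_eq

theorem HZP (hHRM : HRM_stmt) : HZP_stmt := by
  intro k
  obtain ⟨h, hT⟩ := Pool.Agent.helper9.HER.Top_exists k
  rw [HZP_top k h hT]
  refine ⟨hT.zero, hT.nn, ?_, fun j hj => hT.pos j hj⟩
  intro hk
  by_contra hcon
  rw [not_le] at hcon
  have h1 := hT.big 1 hcon 2 (by omega)
  have h2 := hHRM.2.2 0 1
  rw [hHRM.2.1, hHRM.1] at h2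
  rw [← HRM_he, h2] at h1
  norm_num at h1

end Pool.Agent.PLR
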