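import Pool.Agent.helper9.HLR.Spec

/-!
# Project plr (MP_d9e35a_co): two terms of `λ_d(m)` for all `m` of polynomial size outside windows

Notation: `h = hz (k + 1)` = largest zero of the Hermite polynomial `He_(k+1)`, `b = d.choose k`, `E`, `N`, `Le`, `Eig`, `lk` from `HQ/Defs`
(`Le U L`: `E U f ≤ L * N U f` for all `f`; `Eig U l f`: `f ≥ 0`, `N U f = 1`, eigen equation, `Le U l`), `cel`, `Lc` (cells) from `HLR/Spec`.

THEOREM. For every `k ≥ 1`: (a) for every `K ≥ 1` there are `C`, `d₀`: for `d ≥ d₀`, `K b ≤ m < (K+1) b`: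
`λ_K(K) - C/√d ≤ λ_d(m) - h √d ≤ λ_K(K) + C b/(√d ((K+1) b - m))`;
(b) for every `eta > 0` there are `K₀, th > 0, d₀`: for `d ≥ d₀`, `K₀ b ≤ m ≤ th d b`: `|λ_d(m) - h √d - √(m/b)| ≤ eta √(m/b)`.

Rules: file `Pool/Agent/<seat>/PLR/XX.lean`, `import Pool.Agent.helper99.PLR.Spec` (you may also import the proved files
`Pool/Agent/helper25/HQ/LOC.lean`, `Pool/Agent/helper77/HQ/DSC.lean`, `Pool/Agent/helper92/HQ/CUT.lean`, `Pool/Agent/helper9/HLR/LBP.lean`, ... named in the docstrings, and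
`Pool/Agent/helper9/HER/{Hermite,Dir,Lower,Upper}.lean`: `He` (our `he`), `He_succ`, `Top k h`, `Top_exists`, `Top_greatest`, `Gf h rho j = He j h / rho ^ j`, `Gf_rec`, `dir` (GS without the squares),
`Bl d r` (our `ball`), `sum_Bl`, `card_Bl`, `choose_real`, `Ef_Bl`, `lower`),
`namespace Pool.Agent.PLR`, `theorem XX (h : YY_stmt) ... : XX_stmt` (exact line in the lock note). Other rows only as hypotheses, nobody waits.
Auxiliary lemmas prefixed `XX_`. No double quotes, no `convert`, no `congr!`. Paper: `/team-store/C6_MP_d9e35a_co_helper99.md`.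
-/

set_option autoImplicit false
set_option linter.unusedVariables false

open scoped Classical

namespace Pool.Agent.PLR

open Finset
open Pool.Agent.helper65.HC (V IsEig IsTop lam)
open Pool.Agent.helper9.HQ (Fam Dn E N Le Eig lk)
open Pool.Agent.helper9.HX (Ef)
open Pool.Agent.helper9.HLR (cel Lc)

noncomputable section

/-! ## Definitions -/

/-- the value of the Hermite polynomial `He_n` at `x` -/
def he (n : ℕ) (x : ℝ) : ℝ := Polynomial.aeval x (Polynomial.hermite n)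

/-- the largest zero of `He_n` -/
def hz (n : ℕ) : ℝ := sSup {x : ℝ | he n x = 0}

/-- the weights `He_j(h) / √d ^ j`, `j ≤ k`, `h = hz (k + 1)` -/
def wt (k d j : ℕ) : ℝ := if j ≤ k then he j (hz (k + 1)) / √d ^ j else 0

/-- the ball of radius `k` -/
def ball (k d : ℕ) : Fam d := univ.filter fun x => x.card ≤ k

/-- the number of members with `k` elements -/
def lev {d : ℕ} (k : ℕ) (U : Fam d) : ℕ := (U.filter fun x => x.card = k).card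

/-- the members with at most `k` elements -/
def loK {d : ℕ} (k : ℕ) (U : Fam d) : Fam d := U.filter fun x => x.card ≤ k

/-- the members with more than `k` elements -/
def hiK {d : ℕ} (k : ℕ) (U : Fam d) : Fam d := U.filter fun x => k < x.card

/-- the part of the form on the edges between the levels `k` and `k + 1` -/
def Bk {d : ℕ} (k : ℕ) (U : Fam d) (f : Finset (Fin d) → ℝ) : ℝ :=
  ∑ x ∈ U.filter (fun x => x.card = k + 1), ∑ i ∈ x, f x * f (x.erase i)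

/-- the number of the `k`-sets `x` disjoint from `w` with `x ∪ w ∈ U` -/
def upk {d : ℕ} (k : ℕ) (w : Finset (Fin d)) (U : Fam d) : ℕ :=
  (univ.filter fun x : Finset (Fin d) => x.card = k ∧ Disjoint x w ∧ x ∪ w ∈ U).card

/-- the core -/
def core {d : ℕ} (k : ℕ) (kap : ℝ) (U : Fam d) : Fam d :=
  U.filter fun w => (1 - kap) * (d.choose k : ℝ) ≤ (upk k w U : ℝ)

/-- the elements of the core -/
def Sc {d : ℕ} (k : ℕ) (kap : ℝ) (U : Fam d) : Finset (Fin d) := univ.filter fun i => {i} ∈ core k kap U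

/-- the mass of the members which contain `w` (the same as `HQ.LOC_q` of `Pool/Agent/helper25/HQ/LOC.lean`) -/
def mq {d : ℕ} (U : Fam d) (f : Finset (Fin d) → ℝ) (w : Finset (Fin d)) : ℝ :=
  ∑ x ∈ U.filter (fun x => w ⊆ x), f x ^ 2

/-! ## Block 1: Hermite polynomials and the ball -/

/-- HRM (short). The three term recursion. (`He_zero`, `He_one`, `He_succ` of `Pool/Agent/helper9/HER/Hermite.lean`.)
Proof. `Polynomial.hermite_succ : hermite (n+1) = X * hermite n - derivative (hermite n)`. By induction `derivative (hermite (n+1)) = (n+1) * hermite n`: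
`derivative (X * H n - derivative (H n)) = H n + X * derivative (H n) - derivative (derivative (H n))` and with `derivative (H n) = n * H (n-1)` this is
`H n + n * (X * H (n-1) - derivative (H (n-1))) = H n + n * H n`. Then `H (n+2) = X * H (n+1) - (n+1) * H n`; apply `aeval x`. -/
def HRM_stmt : Prop := (∀ x, he 0 x = 1) ∧ (∀ x, he 1 x = x) ∧
  ∀ (n : ℕ) (x : ℝ), he (n + 2) x = x * he (n + 1) x - (n + 1) * he n x

/-- HZP (short; uses HRM). The largest zeros increase. (`Top_exists`, `Top_greatest` of `Pool/Agent/helper9/HER/Hermite.lean`; `he 2 x = x ^ 2 - 1`.)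
Proof. (i) For `x ≥ n + 1`: `he n x > 0` and `he (n+1) x ≥ he n x` (induction: `he (n+2) x = x he (n+1) x - (n+1) he n x ≥ (x - n - 1) he (n+1) x ≥ he (n+1) x` for `x ≥ n + 2`).
(ii) Claim for `n ≥ 1`: there is `z` with `he n z = 0`, `he n x > 0` for all `x > z`, `he (n-1) x > 0` for all `x ≥ z`, `0 ≤ z`. `n = 1`: `z = 0`. Step: `he (n+1) z = z * 0 - n * he (n-1) z < 0`. The set of zeros of `he (n+1)` in `[z, n + 2]` is
compact (continuity: `he (n+1)` is a polynomial function) and not empty (IVT, (i)); let `z'` be its greatest element; `z' > z`; for `x > z'`: if `he (n+1) x ≤ 0` then `x < n + 2` (by (i)) and there is a zero in `[x, n+2]`, contradiction; `he n x > 0` for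
`x ≥ z'` since `z' > z`. So `z` is the greatest element of the zero set: `hz n = z` (`IsGreatest.csSup_eq`).
(iii) `hz (n+1) > hz n` for `n ≥ 1`; for `1 ≤ j ≤ k`: `hz (k+1) > hz j` so `he j (hz (k+1)) > 0`; `j = 0`: 1. (iv) `he 2 x = x^2 - 1`, so `hz 2 = 1` and `hz (k+1) ≥ 1` for `k ≥ 1`. -/
def HZP_stmt : Prop := ∀ k : ℕ, he (k + 1) (hz (k + 1)) = 0 ∧ 0 ≤ hz (k + 1) ∧ (1 ≤ k → 1 ≤ hz (k + 1)) ∧
  ∀ j ≤ k, 0 < he j (hz (k + 1))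

/-- WTS (short-medium; uses HRM HZP). The weights. (See `Gf_rec` of `HER/Dir.lean`, `sum_Bl` of `HER/Lower.lean`, `pow_le_choose'` of `HER/Upper.lean`.)
Proof. With `s = √d`: `j * wt (j-1) + d * wt (j+1) = (j he_(j-1) + he_(j+1)) / s^(j-1) = h he_j / s^(j-1) = h s wt j` for `1 ≤ j ≤ k` (for `j = k`: `wt (k+1) = 0` and `he_(k+1)(h) = 0`, so `k he_(k-1) = h he_k`);
`j = 0`: `d * wt 1 = s * he_1(h) = s h` (`k ≥ 1`), for `k = 0` both sides are 0 (`hz 1 = 0` from `he 1 (hz 1) = 0`). Ratios: `wt j = (he_j/he_(j-1)) / s * wt (j-1)`.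
`d.choose k ≥ (d/2)^k / k!` for `d ≥ 2 k + 1` (each factor `d - i ≥ d/2`; `Nat.choose_eq_descFactorial_div_factorial` or `Nat.pow_sub_le_descFactorial`, or `(d/k)^k ≤ d.choose k`: `Nat.pow_le_choose`-type lemmas), so
`d.choose k * wt k ^ 2 ≥ he_k^2 / (2^k k!)`. `N (ball k d) (wt |x|) = ∑_{j ≤ k} d.choose j * wt j ^ 2 ≤ ∑ he_j^2` (`d.choose j ≤ d^j`, `s^2 = d`). `C` = a large constant. -/
def WTS_stmt : Prop := ∀ k : ℕ, ∃ c C : ℝ, 0 < c ∧ 0 < C ∧ ∀ d : ℕ, 2 * k + 1 ≤ d →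
  wt k d 0 = 1 ∧ (∀ j ≤ k, 0 < wt k d j) ∧ (∀ j, k < j → wt k d j = 0) ∧
  (∀ j ≤ k, (j : ℝ) * wt k d (j - 1) + d * wt k d (j + 1) = hz (k + 1) * √d * wt k d j) ∧
  (∀ j, 1 ≤ j → j ≤ k → wt k d j ≤ C / √d * wt k d (j - 1)) ∧
  c ≤ (d.choose k : ℝ) * wt k d k ^ 2 ∧ wt k d k ≤ C / √d ^ k ∧
  N (ball k d) (fun x => wt k d x.card) ≤ C

/-- GS (medium; uses WTS). Ground state representation. (Model: `dir` of `HER/Dir.lean`.)
Proof. For `x` with `|x| = j ≤ k`, `i ∈ x`: `wt j wt (j-1) (f x/wt j - f(x-i)/wt (j-1))² = (wt (j-1)/wt j) f x² + (wt j/wt (j-1)) f(x-i)² - 2 f x f(x-i)`. The sum of the third terms over the ball is `-E`. The first terms: `∑_x |x| (wt (|x|-1)/wt |x|) f x²`.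
The second terms: `(x, i) ↦ (x - i, i)` is a bijection onto the pairs `(y, i)`, `|y| ≤ k - 1`, `i ∉ y`: `∑_{|y| ≤ k-1} (d - |y|) (wt (|y|+1)/wt |y|) f y²`, and this may be extended to `|y| ≤ k` (`wt (k+1) = 0`) and `d - |y|` replaced by `d`.
The coefficient of `f y²` is at most `(j wt (j-1) + d wt (j+1))/wt j = h √d`. -/
def GS_stmt : Prop := ∀ k d : ℕ, 2 * k + 1 ≤ d → ∀ f : Finset (Fin d) → ℝ,
  ∑ x ∈ ball k d, ∑ i ∈ x, wt k d x.card * wt k d (x.card - 1) *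
      (f x / wt k d x.card - f (x.erase i) / wt k d (x.card - 1)) ^ 2 ≤
    hz (k + 1) * √d * N (ball k d) f - E (ball k d) f

/-- GAP (medium; uses WTS GS). A function with almost maximal form is close to a multiple of the weights.
Proof. `ph x = f x/wt |x|`, `c = f ∅ = ph ∅`. For `1 ≤ j ≤ k`: `a_j = ∑_{|x| = j} (ph x - c)²`, `e_j = ∑_{|x| = j} ∑_{i ∈ x} (ph x - ph(x-i))²`. `j a_j = ∑_{|x|=j} ∑_{i ∈ x} (ph x - c)² ≤ 2 e_j + 2 ∑_{|x|=j} ∑_{i∈x} (ph(x-i) - c)² = 2 e_j + 2 (d-j+1) a_(j-1)`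
(each `y` with `|y| = j-1` occurs for the `d - j + 1` elements `i ∉ y`). `Δ` = right side of GS; `wt j wt (j-1) e_j ≤ Δ` (all terms of GS are `≥ 0`). With `A_j = wt j ^ 2 * a_j = ∑_{|x|=j} (f x - f ∅ wt j)²` and `wt j ≤ C/√d wt (j-1)`:
`A_j ≤ 2 wt j² e_j + 2 d wt j² a_(j-1) ≤ 2 (C/√d) Δ + 2 C² A_(j-1)`, `A_0 = 0`. So `A_j ≤ C_j Δ/√d` by induction, and the left side is `∑_{j ≤ k} A_j`. -/
def GAP_stmt : Prop := ∀ k : ℕ, ∃ C : ℝ, 0 < C ∧ ∀ d : ℕ, 2 * k + 1 ≤ d → ∀ f : Finset (Fin d) → ℝ,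
  ∑ x ∈ ball k d, (f x - f ∅ * wt k d x.card) ^ 2 ≤
    C / √d * (hz (k + 1) * √d * N (ball k d) f - E (ball k d) f)

/-- A1 (medium; uses WTS GS GAP). Few `k`-sets.
Proof. `V = ∅`: clear. `∅ ∈ V`. Let `f' = f` on `V`, `0` outside: `N (ball) f' = N V f`, `E (ball) f' = E V f` (`V` is a down-set). `Δ = h √d N V f - E V f ≥ 0` (GS: the left side is a sum of squares). At least `tau b` of the `k`-sets are not in `V`
(there are `b = d.choose k` of them, `Finset.card_powersetCard`), there `(f' x - f ∅ wt k)² = f ∅ ² wt k ²`: GAP gives `tau b wt k ² f ∅ ² ≤ C Δ/√d`, so `tau f ∅ ² ≤ C Δ/(c₀ √d)`. `N V f ≤ 2 ∑ (f' - f ∅ wt)² + 2 f ∅ ² ∑ wt²`, so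
`tau N V f ≤ 2 C Δ/√d + 2 C_w tau f ∅ ² ≤ C'' Δ/√d`, i.e. `Δ ≥ tau √d N V f/C''`: take `c = min (1/2) (1/C'')` . -/
def A1_stmt : Prop := ∀ k : ℕ, ∃ c : ℝ, 0 < c ∧ c ≤ 1 / 2 ∧ ∀ d : ℕ, 2 * k + 1 ≤ d → ∀ (V : Fam d) (tau : ℝ), Dn V →
  (∀ x ∈ V, x.card ≤ k) → 0 ≤ tau → tau ≤ 1 → (lev k V : ℝ) ≤ (1 - tau) * (d.choose k : ℝ) →
  Le V ((hz (k + 1) - c * tau) * √d)

/-- BQ (short-medium; uses WTS). The ball itself. (Model: `Ef_Bl`, `lower` of `HER/Lower.lean`.)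
Proof. For `|y| = j ≤ k` the sum of the weights over the neighbours of `y` in the ball is `j wt (j-1) + (d-j) wt (j+1) = h √d wt j - j wt (j+1) ≥ (1 - j/d) h √d wt j` (`d wt (j+1) ≤ h √d wt j`, also for `j = k`: `wt (k+1) = 0`).
`E = 2 ∑_x ∑_{i∈x} wt |x| wt (|x|-1) = ∑_y wt |y| * (sum over the neighbours)` (each edge counted from both ends: `∑_x ∑_{i ∈ x} F x (x-i) = ∑_y ∑_{i ∉ y, |y| < k} F (y+i) y`). -/
def BQ_stmt : Prop := ∀ k d : ℕ, 2 * k + 1 ≤ d →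
  (1 - (k : ℝ) / d) * (hz (k + 1) * √d) * N (ball k d) (fun x => wt k d x.card) ≤
    E (ball k d) (fun x => wt k d x.card) ∧ 1 ≤ N (ball k d) (fun x => wt k d x.card)

/-! ## Block 2: localisation, descent, cutting -/

/-- LCK (short). Localisation, levels `> k`. Proof. `LOC_bound` of `Pool/Agent/helper25/HQ/LOC.lean` (import it) with `m = k + 1`, as in the theorem `LOC` there: each `x ∈ U` with more than `k` elements contains a `(k+1)`-set `w ∈ U`;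
sum over these `w`, at most `|U|` of them. -/
def LCK_stmt : Prop := ∀ (d k : ℕ) (U : Fam d) (l : ℝ) (f : Finset (Fin d) → ℝ) (kap : ℝ), Dn U → Eig U l f →
  0 < kap → 0 < l → (∀ i, Le (lk i U) ((1 - kap) * l)) →
  N (hiK k U) f ≤ ((k + 1).factorial : ℝ) ^ 2 * U.card / (kap * l) ^ (2 * (k + 1))

/-- DSK (medium; uses `HQ.EV_stmt`). Descent to a link. Model: `Pool/Agent/helper77/HQ/DSC.lean` (copy it) with `9/10` replaced by `rho = 1 - 1/(4(k+1))` and `10` by `1/(1-rho) = 4(k+1)`.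
Proof. As there: `A` is an iterated link of `U` (so `A ⊆ U`, since `lk i U ⊆ U`), `|A| 2^J ≤ |U|`, `l' ≥ (1 - 4(k+1) kap) l`, links of `A` satisfy `Le (lk i A) ((1 - kap rho^J) l')`. Put `kap' = kap rho^J`. Bernoulli: `rho^(2(k+1)) ≥ 1 - 2(k+1)/(4(k+1)) = 1/2`, so
`|A| kap^(2(k+1)) ≤ |U| 2^(-J) kap^(2(k+1)) ≤ |U| kap'^(2(k+1))`. -/
def DSK_stmt : Prop := ∀ (d k : ℕ) (U : Fam d) (l : ℝ) (f : Finset (Fin d) → ℝ) (kap : ℝ), Dn U → Eig U l f →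
  0 < l → 0 < kap → 8 * (k + 1) * kap ≤ 1 →
  ∃ (A : Fam d) (l' : ℝ) (f' : Finset (Fin d) → ℝ) (kap' : ℝ), A ⊆ U ∧ Dn A ∧ Eig A l' f' ∧
    (1 - 4 * (k + 1) * kap) * l ≤ l' ∧ 0 < kap' ∧ kap' ≤ kap ∧
    (A.card : ℝ) * kap ^ (2 * (k + 1)) ≤ U.card * kap' ^ (2 * (k + 1)) ∧
    ∀ i, Le (lk i A) ((1 - kap') * l')

/-- BIP (short-medium). The edges between two levels.
Proof. For `th > 0` apply `Le U L` to the function `th u` on the level `k`, `th⁻¹ v` on the level `k + 1`, `0` elsewhere: `E U = 2 ∑ ∑ v x u(x-i)` (for `x ∈ U` with `k + 1` elements `x - i ∈ U` has `k` elements; all other terms vanish), so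
`2 S ≤ L (th² N_u + th⁻² N_v)`. If `N_u, N_v > 0` take `th² = √N_v/√N_u`; if one of them is 0 then `S = 0`. -/
def BIP_stmt : Prop := ∀ (d k : ℕ) (U : Fam d) (L : ℝ) (u v : Finset (Fin d) → ℝ), Dn U → 0 ≤ L → Le U L →
  ∑ x ∈ U.filter (fun x => x.card = k + 1), ∑ i ∈ x, v x * u (x.erase i) ≤
    L * √(∑ y ∈ U.filter (fun y => y.card = k), u y ^ 2) * √(∑ x ∈ U.filter (fun x => x.card = k + 1), v x ^ 2)

/-- CTK (short-medium). Cutting off the levels `> k`. Proof. Multiply the eigen equation at `x ∈ loK k U` by `f x` and sum: `l N (loK k U) f = E (loK k U) f + Bk k U f` (see `Pool/Agent/helper92/HQ/CUT.lean`, copy); `Bk ≥ 0` as `f ≥ 0`. -/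
def CTK_stmt : Prop := ∀ (d k : ℕ) (U : Fam d) (l : ℝ) (f : Finset (Fin d) → ℝ), Dn U → Eig U l f →
  l * N (loK k U) f = E (loK k U) f + Bk k U f ∧ 0 ≤ Bk k U f ∧ N (loK k U) f + N (hiK k U) f = 1

/-- EIE (short). Proof. Multiply the eigen equation by `f x` and sum (or CTK for `k = d`). -/
def EIE_stmt : Prop := ∀ (d : ℕ) (U : Fam d) (l : ℝ) (f : Finset (Fin d) → ℝ), Dn U → Eig U l f → E U f = l

/-- CLA (medium; uses `HQ.EV_stmt` HZP A1 LCK DSK BIP CTK). Down-sets with few `k`-sets have a smaller eigenvalue.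
Proof. `h = hz (k+1) ≥ 1`; `c₁` from A1, `c = c₁ kap/2 ≤ 1/2`. `V = ∅` clear. EV: `Eig V l f`. If `l ≤ (h - c) √d` done (`Le V l`, `N ≥ 0`). Otherwise `l ≥ √d/2 > 0`. DSK with `kap₁ = c₁ kap/(16 (k+1) h)`: `A ⊆ V`, `l'`, `kap'`; `l' ≥ (1 - c₁ kap/(4h)) l ≥ l/2 ≥ √d/4`.
LCK: `q = N (hiK k A) f' ≤ (k+1)!² |A|/(kap' l')^(2k+2) ≤ (k+1)!² |V|/(kap₁ l')^(2k+2) ≤ (k+1)!² 16^(k+1) th/kap₁^(2k+2)` (`|V| ≤ th d^(k+1)`, `l'^(2k+2) ≥ (d/16)^(k+1)`): choose `th` such that `2 √q ≤ c₁ kap/(4h) ≤ 1/8`. CTK and BIP (`u = v = f'`; `Le A l'`):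
`l' N₁ = E (loK k A) f' + B`, `B ≤ l' √N₁ √q`, `N₁ = 1 - q ≥ 1/4`, and A1 for `loK k A` with `tau = kap` (`lev k (loK k A) = lev k A ≤ lev k V`): `E (loK k A) f' ≤ (h - c₁ kap) √d N₁`. So `l' (1 - 2√q) ≤ (h - c₁ kap) √d`, hence with `x = c₁ kap/(4h)`:
`(1 - x)² l ≤ (h - c₁ kap) √d`, and `(1-x)² (h - c) ≥ h - c - 2 x h = h - c₁ kap`: so `l ≤ (h - c) √d`. -/
def CLA_stmt : Prop := ∀ k : ℕ, 1 ≤ k → ∀ kap : ℝ, 0 < kap → kap ≤ 1 → ∃ c th : ℝ, 0 < c ∧ c ≤ 1 / 2 ∧ 0 < th ∧ ∃ d₀ : ℕ, ∀ d ≥ d₀,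
  ∀ V : Fam d, Dn V → (V.card : ℝ) ≤ th * (d : ℝ) ^ (k + 1) → (lev k V : ℝ) ≤ (1 - kap) * (d.choose k : ℝ) →
  Le V ((hz (k + 1) - c) * √d)

/-- CLB (medium-long; uses `HQ.EV_stmt` HZP WTS GS GAP A1 LCK BIP CTK CLA). Down-sets all of whose links have few `k`-sets.
Proof. `cA, thA` from CLA, `c₁` from A1, `c = min (c₁/2) (cA/2)`, `th ≤ thA` small. `V = ∅` clear, EV: `Eig V l f`. If `l ≤ (h - c tau) √d` done. Otherwise `l > (h - c tau) √d ≥ (h - cA/2) √d ≥ √d/2`. CLA for the links (`lk i V ⊆ V` is a down-set): `Le (lk i V) ((h - cA) √d)`,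
and `(h - cA) √d ≤ (1 - kap₂) l`, `kap₂ = cA/(2h)` (`(1 - a/h)(h - a) ≥ h - 2a`, `a = cA/2`). LCK: `q = N (hiK k V) f ≤ (k+1)!² |V|/(kap₂ l)^(2k+2) ≤ C₁ v`, `v = |V|/d^(k+1) ≤ th`; choose `th` with `C₁ th ≤ 1/16`. `N₁ = N (loK k V) f = 1 - q ≥ 1/2`.
CTK: `l N₁ = E₁ + B`. BIP: `B ≤ l √N₁ √q ≤ l/4`, `E₁ ≤ h √d N₁` (A1 with `tau = 0`), so `l/2 ≤ l N₁ ≤ h √d + l/4`, `l ≤ 4 h √d`. Let `f' = f` on `loK k V`, 0 elsewhere, `Δ = h √d N₁ - E₁ = (h √d - l) N₁ + B ≤ c tau √d + B`. GAP for `f'`: `∑_{ball} (f' x - f ∅ wt |x|)² ≤ C₄ Δ/√d`.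
`B = ∑_{|x| = k+1} ∑_{i ∈ x} f x f(x-i) = f ∅ wt k (k+1) ∑_{|x|=k+1} f x + ∑ ∑ f x (f(x-i) - f ∅ wt k)`. First: `f ∅ ≤ 1`, `∑_{x ∈ V, |x|=k+1} f x ≤ √|V| √q`, `wt k ≤ C/√d^k`: at most `C₃ |V|/(d^k √d) = C₃ v √d`. Second, by BIP (`v = f`, `u = f - f ∅ wt k`): at most
`l √(C₄ Δ/√d) √q ≤ 4 h √d √(C₄ (c tau + X)) √(C₁ v)`, `X = B/√d`. So `X ≤ C₃ v + 4h √(C₁ C₄) √(c tau + X) √v ≤ C₃ v + (c tau + X)/4 + 16 h² C₁ C₄ v`, hence `X ≤ C₆ v + c tau/3`. A1 with `tau` for `loK k V`: `E₁ ≤ (h - c₁ tau) √d N₁`, so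
`l = (E₁ + B)/N₁ ≤ (h - c₁ tau) √d + 2 B ≤ (h - c₁ tau + (2/3) c tau) √d + 2 C₆ v √d ≤ (h - c tau) √d + C |V|/(√d d^k)`. -/
def CLB_stmt : Prop := ∀ k : ℕ, 1 ≤ k → ∀ kap : ℝ, 0 < kap → kap ≤ 1 → ∃ c C th : ℝ, 0 < c ∧ 0 < C ∧ 0 < th ∧ ∃ d₀ : ℕ, ∀ d ≥ d₀,
  ∀ (V : Fam d) (tau : ℝ), Dn V → (V.card : ℝ) ≤ th * (d : ℝ) ^ (k + 1) →
  (∀ i, (lev k (lk i V) : ℝ) ≤ (1 - kap) * (d.choose k : ℝ)) → 0 ≤ tau → tau ≤ 1 →
  (lev k V : ℝ) ≤ (1 - tau) * (d.choose k : ℝ) →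
  Le V ((hz (k + 1) - c * tau) * √d + C * V.card / (√d * (d : ℝ) ^ k))

/-! ## Block 3: core and cells -/

/-- UPA (short). `upk` is antitone on `U`, `core` is a down-set, its members are subsets of `Sc`. Proof. `x` disjoint from `w'`, `x ∪ w' ∈ U`, `w ⊆ w'`: `x` is disjoint from `w` and `x ∪ w ∈ U`. For `w ∈ core`, `i ∈ w`: `{i} ∈ core`. -/
def UPA_stmt : Prop := ∀ (d k : ℕ) (U : Fam d) (kap : ℝ), Dn U →
  (∀ w w' : Finset (Fin d), w ⊆ w' → upk k w' U ≤ upk k w U) ∧ Dn (core k kap U) ∧ (∀ w ∈ core k kap U, w ⊆ Sc k kap U)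

/-- CLK (short-medium). Counts for cells. Model: `Pool/Agent/helper9/HLR/CLC.lean`. Proof. `y ↦ y ∪ w` is injective on the `y` disjoint from `S ⊇ w`. The `k`-sets `y` of `Lc S w U` are disjoint from `w`, `y ∪ w ∈ U`. The `k`-sets `y` of `lk i (Lc S w U)`, `i ∉ S`: `insert i y` disjoint
from `S`, `insert i y ∪ w = y ∪ insert i w ∈ U`, `y` disjoint from `insert i w`. For `i ∈ S` the link is empty. -/
def CLK_stmt : Prop := ∀ (d k : ℕ) (U : Fam d) (S w : Finset (Fin d)), Dn U → w ⊆ S →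
  Dn (Lc S w U) ∧ (Lc S w U).card ≤ U.card ∧ lev k (Lc S w U) ≤ upk k w U ∧
  (∀ i ∈ S, lev k (lk i (Lc S w U)) = 0) ∧ ∀ i, i ∉ S → lev k (lk i (Lc S w U)) ≤ upk k (insert i w) U

/-- PRK (short-medium). Proof. For `w ∈ C`: the `k`-sets `x` counted in `upk k w U` which meet `S`: at most `|S| (d-1).choose (k-1)` (for each `i ∈ S` there are `(d-1).choose (k-1)` `k`-sets containing `i`). The others: `(w, x) ↦ x ∪ w` is injective (`w = (x ∪ w) ∩ S`)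
with values in `U`. -/
def PRK_stmt : Prop := ∀ (d k : ℕ) (U C : Fam d) (S : Finset (Fin d)), 1 ≤ k → 1 ≤ d → (∀ w ∈ C, w ⊆ S) →
  ∑ w ∈ C, upk k w U ≤ U.card + C.card * (S.card * (d - 1).choose (k - 1))

/-- CRA (short-medium; uses UPA PRK, `HLR.DSB_stmt`). Model: `HLR.COR` (`Pool/Agent/*/HLR/COR.lean`).
Proof. `kap = 1/(2(K+2))`. `(d-1).choose (k-1) * d = k * b` (`Nat.succ_mul_choose_eq`). If the core has at least `K + 2` members, DSB gives a down-set `C'` in it with `K + 2` members, `S' = {i : {i} ∈ C'}`, `|S'| ≤ K + 2`, PRK: `(K+2)(1 - kap) b ≤ |U| + (K+2)² k b/d < (K+1) b + (K+2)² k b/d`,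
i.e. `K + 3/2 < K + 1 + (K+2)² k/d`, false for `d ≥ 2 (K+2)² k`. So `|core| ≤ K + 1` and `|Sc| ≤ K` (`∅` is in the core if it is not empty). If `|core| ≤ K`: `B = core`. If `K + 1`: PRK with `S = Sc`: some `w₀` has `(K+1) upk k w₀ U ≤ |U| + (K+1) K k b/d`; `B = core.erase w₀`. -/
def CRA_stmt : Prop := ∀ k K : ℕ, 1 ≤ k → 1 ≤ K → ∃ d₀ : ℕ, ∀ d ≥ d₀, ∀ U : Fam d, Dn U → U.card < (K + 1) * d.choose k →
  (Sc k (1 / (2 * ((K : ℝ) + 2))) U).card ≤ K ∧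
  ∃ B ⊆ core k (1 / (2 * ((K : ℝ) + 2))) U, B.card ≤ K ∧ ∀ w ∈ core k (1 / (2 * ((K : ℝ) + 2))) U, w ∉ B →
    ((K : ℝ) + 1) * upk k w U ≤ U.card + (K + 1) * K * k * (d.choose k : ℝ) / d

/-- CBA (medium; uses CLA CLB UPA CLK CRA). The bounds for the cells, bounded `K`. Model: `Pool/Agent/helper9/HLR/CLB.lean`.
Proof. `kap = 1/(2(K+2))`, `S = Sc k kap U`, `B` from CRA; `t = (K+1) b - |U| > 0`. `|U| ≤ (K+1) d^k ≤ th d^(k+1)` for large `d`. `w ⊆ S` not in the core: `upk k w U < (1-kap) b` (if `w ∉ U`, `upk = 0` as `U` is a down-set; `b > 0`), CLK, CLA: `Le (Lc S w U) ((h - cA) √d)`; with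
`c₁ (K+1) ≤ cA`: `(h - cA) √d ≤ h √d - c₁ √d t/b` (`t ≤ (K+1) b`). `w` in the core: for `i ∉ S` the set `insert i w` is not in the core (UPA: otherwise `i ∈ Sc`), CLK: all links have at most `(1-kap) b` `k`-sets. CLB with `tau = 0` (`lev k ≤ b`): `Le (Lc S w U) (h √d + C (K+1)/√d)`. If `w ∉ B`: with
`tau = max 0 (t/((K+1) b) - K k/d)`, `upk k w U ≤ (1 - tau) b` by CRA: `Le (Lc S w U) (h √d - c √d (t/((K+1) b) - K k/d) + C (K+1)/√d)`. `R = C (K+1) + c K k`, `c₁ = min (cA/(K+1)) (c/(K+1))`. -/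
def CBA_stmt : Prop := ∀ k K : ℕ, 1 ≤ k → 1 ≤ K → ∃ (R c₁ : ℝ) (d₀ : ℕ), 0 ≤ R ∧ 0 < c₁ ∧ ∀ d ≥ d₀, ∀ U : Fam d, Dn U →
  U.card < (K + 1) * d.choose k → ∃ (S : Finset (Fin d)) (B : Fam d), S.card ≤ K ∧ B.card ≤ K ∧ (∀ w ∈ B, w ⊆ S) ∧
    (∀ w, w ⊆ S → Le (Lc S w U) (hz (k + 1) * √d + R / √d)) ∧
    ∀ w, w ⊆ S → w ∉ B →
      Le (Lc S w U) (hz (k + 1) * √d + R / √d - c₁ * √d * (((K + 1) * (d.choose k : ℝ) - U.card) / (d.choose k : ℝ)))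

/-- ASA (medium; uses CBA, `HLR.CLE_stmt`, `HLR.SPL_stmt`, `HLR.QFM_stmt`). The upper bound for down-sets, bounded `K`. Model: `Pool/Agent/helper9/HLR/ASM.lean`.
Proof. `t = (K+1) b - |U| > 0`, `P = h √d + R/√d`, `g = c₁ √d t/b`, `n_w = √(N (cel S w U) f)`. SPL, CLE: `E U f ≤ ∑ ell_w n_w² + 2 ∑ ∑ n_w n_{w-j}`, `ell_w = P` for `w ∈ B`, `P - g` otherwise. `g ≥ 4K`: QFM (first part): `E ≤ (P + lam K K + 4K²/g) N`, `4K²/g = (4K²/c₁) b/(√d t)`,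
`R/√d ≤ R (K+1) b/(√d t)`. `g < 4K`: `b/(√d t) = c₁/g > c₁/(4K)`; QFM (second part): `E ≤ (P + K) N`, `R/√d + K ≤ R + K ≤ C b/(√d t)` if `C ≥ 4K (R+K)/c₁`; `lam K K ≥ 0`. -/
def ASA_stmt : Prop := ∀ k K : ℕ, 1 ≤ k → 1 ≤ K → ∃ (C : ℝ) (d₀ : ℕ), 0 < C ∧ ∀ d ≥ d₀, ∀ U : Fam d, Dn U →
  U.card < (K + 1) * d.choose k →
  Le U (hz (k + 1) * √d + lam K K + C * (d.choose k : ℝ) / (√d * ((K + 1) * (d.choose k : ℝ) - U.card)))

/-- LBK (medium; uses BQ WTS, `HX.EMB_stmt`). The lower bound. Model: `Pool/Agent/helper9/HLR/LBP.lean` (import it: `LBP_e`, `LBP_prod`), with the star replaced by the ball.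
Proof. `HQ.DC_start` (with `Pool.Agent.helper65.HC.lam_isGreatest K K`) gives a family `A` of `K` subsets of `Fin K` and `g ≥ 0` supported on `A`, `∑ g² = 1`, `lam K K ≤ DC_tot g`. In `Fin (K + D)`: `W` = the sets with first part in `A` and second part in `ball k D`,
`F x = g (first) * w (second)`, `w y = wt k D |y|` (0 if `|y| > k`). `|W| = K * |ball k D| ≤ K * (D+k).choose k` (Vandermonde `Nat.add_choose_eq`: `(D+k).choose k = ∑_j D.choose j * k.choose (k-j) ≥ ∑_{j ≤ k} D.choose j`). `LBP_prod`: `DC_tot F = DC_tot g * ∑ w² + DC_tot w`,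
`∑ F² = ∑ w²`; `DC_tot w = E (ball k D) w` (`HQ.DC_tot_eq`) `≥ (1 - k/D) h √D ∑ w²` (BQ), `∑ w² ≥ 1`. EMB for the family `W` of subsets of `Fin (K + D)`, `S = univ`, target dimension `d`: `Ef W F ≤ lam d m * N W F`. Divide by `∑ w²`. -/
def LBK_stmt : Prop := ∀ k K D d m : ℕ, 1 ≤ k → 1 ≤ K → 2 * k + 1 ≤ D → K + D ≤ d → K * (D + k).choose k ≤ m → m ≤ 2 ^ d →
  hz (k + 1) * √D * (1 - k / D) + lam K K ≤ lam d m

/-- FNA (short-medium; uses HZP, `HQ.DC_stmt`, ASA, LBK). Part (a). Model: `Pool/Agent/helper9/HLR/FIN.lean`.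
Proof. For large `d`: `(K+1) b ≤ 2 ^ d` (`b ≤ d^k`). Upper bound: DC and ASA. Lower bound: LBK with `D = d - K - k`: `K (d-K).choose k ≤ K b ≤ m`. `√D ≥ √d - (K+k)/√d`, `√D (1 - k/D) = √D - k/√D ≥ √d - (K + 3k)/√d` for large `d`. -/
def FNA_stmt : Prop := ∀ k K : ℕ, 1 ≤ k → 1 ≤ K → ∃ (C : ℝ) (d₀ : ℕ), 0 < C ∧ ∀ d ≥ d₀, ∀ m : ℕ,
  K * d.choose k ≤ m → m < (K + 1) * d.choose k →
  IsGreatest {t | ∃ U : Finset (V d), U.card = m ∧ IsTop U t} (lam d m) ∧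
  lam K K - C / √d ≤ lam d m - hz (k + 1) * √d ∧
  lam d m - hz (k + 1) * √d ≤ lam K K + C * (d.choose k : ℝ) / (√d * ((K + 1) * (d.choose k : ℝ) - m))

/-! ## Block 4: growing `K` -/

/-- LCW (medium). Localisation at one set. Model: `LOC_step` of `Pool/Agent/helper25/HQ/LOC.lean` (import it: `LOC_first`, `LOC_up`, `LOC_cs`; `mq = LOC_q`).
Proof. As there: `l mq w = 2 ∑_{x ⊇ w} ∑_{j ∈ x \ w} f x f(x-j) + ∑_{x ⊇ w} ∑_{i ∈ w} f x f(x-i)`. The second term is at most `√(mq w) ∑_{i∈w} √(mq (w-i))` (LOC_cs). The first term is at most `L mq w`: if `Le (lk i U) L` for some `i ∈ w` this is LOC_first; if `Le (Lc w w U) L`: the map `y ↦ y ∪ w` is a bijection of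
`Lc w w U = {y : y disjoint from w, y ∪ w ∈ U}` with the members containing `w`, it carries the form (`CLE` of HLR for `S = w`: `Ef (cel w w U) f ≤ L N (cel w w U) f`, or directly). Divide by `√(mq w)` if it is positive. -/
def LCW_stmt : Prop := ∀ (d : ℕ) (U : Fam d) (l L : ℝ) (f : Finset (Fin d) → ℝ) (w : Finset (Fin d)), Dn U → Eig U l f →
  w.Nonempty → ((∃ i ∈ w, Le (lk i U) L) ∨ Le (Lc w w U) L) →
  (l - L) * √(mq U f w) ≤ ∑ i ∈ w, √(mq U f (w.erase i))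

/-- CSZ (short-medium; uses UPA PRK). The size of the core.
Proof. `(d-1).choose (k-1) * d = k * b`. `th = kap/(3k)`. Suppose `|Sc| > K/(1-2 kap)`; choose `S' ⊆ Sc` with `|S'| = ⌊K/(1-2kap)⌋ + 1 ≤ 2K + 1 ≤ 3K`. PRK for `C = {{i} : i ∈ S'}`, `S = S'`: `|S'| (1-kap) b ≤ K b + |S'|² k b/d`, so `|S'| (1 - kap - 3 K k/d) ≤ K`, `3 K k/d ≤ kap`: `|S'| ≤ K/(1-2kap)`,
contradiction. Then PRK for `C = core`, `S = Sc`, `|Sc| ≤ 2K`: `|core| (1 - kap - 2 K k/d) ≤ K`. -/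
def CSZ_stmt : Prop := ∀ (k : ℕ) (kap : ℝ), 1 ≤ k → 0 < kap → kap ≤ 1 / 4 → ∃ (th : ℝ) (d₀ : ℕ), 0 < th ∧ ∀ d ≥ d₀,
  ∀ (K : ℝ) (U : Fam d), Dn U → 1 ≤ K → K ≤ th * d → (U.card : ℝ) ≤ K * (d.choose k : ℝ) →
  ((Sc k kap U).card : ℝ) ≤ K / (1 - 2 * kap) ∧ ((core k kap U).card : ℝ) ≤ K / (1 - 2 * kap)

/-- ZB (medium; uses HZP CLA UPA CLK LCW CSZ). The mass of the members containing two elements of `Sc`.
Proof. `S = Sc k kap U`, `|S|, |core| ≤ 2K`. `mq ∅ = 1`. LCW for `w = {i}` (`L = l - √K/4`): `(√K/4) √(mq {i}) ≤ 1`, `mq {i} ≤ 16/K`. Pairs `w ⊆ S` in the core, LCW with `Le (lk i U) (l - √K/4)`: `(√K/4) √(mq w) ≤ 8/√K`, `mq w ≤ 1024/K²`; at most `2K` of them. Pairs `w ⊆ S` not in the core: `upk k w U < (1-kap) b`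
(or `w ∉ U`, then `Lc w w U = ∅`), `lev k (Lc w w U) ≤ upk k w U`, `|Lc w w U| ≤ |U| ≤ K d^k ≤ th d^(k+1)`, CLA: `Le (Lc w w U) ((h - cA) √d)`, `l ≥ h √d`: `cA √d √(mq w) ≤ 8/√K`, `mq w ≤ 64/(cA² K d)`; at most `|S|² ≤ 4K²` of them. Sum: `2048/K + 256 K/(cA² d)`. -/
def ZB_stmt : Prop := ∀ (k : ℕ) (kap : ℝ), 1 ≤ k → 0 < kap → kap ≤ 1 / 4 → ∃ (C th : ℝ) (d₀ : ℕ), 0 < C ∧ 0 < th ∧ ∀ d ≥ d₀,
  ∀ (K : ℝ) (U : Fam d) (l : ℝ) (f : Finset (Fin d) → ℝ), Dn U → 1 ≤ K → K ≤ th * d → (U.card : ℝ) ≤ K * (d.choose k : ℝ) →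
  Eig U l f → hz (k + 1) * √d ≤ l → (∀ i, Le (lk i U) (l - √K / 4)) →
  ∑ w ∈ (Sc k kap U).powersetCard 2, mq U f w ≤ C * (1 / K + K / d)

/-- STS (short-medium). A quadratic form on the subsets of `S`: the edges at `∅` give a star, the others are controlled by the mass on sets with two elements.
Proof. `M = ∑_{w ⊆ S} n_w²`, `Y` = the sum on the right. Terms with `|w| = 1`: `2 n_∅ ∑_j n_{j} ≤ 2 n_∅ √|S| √(∑ n_j²) ≤ √|S| (n_∅² + ∑ n_j²) ≤ √|S| M`. Terms with `|w| ≥ 2`, Cauchy-Schwarz: `∑_{|w| ≥ 2} ∑_{j∈w} n_w n_{w-j} ≤ √(∑_{|w| ≥ 2} |w| n_w²) √(∑_{w} ∑_{j ∈ w} n_{w-j}²)`,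
`|w| ≤ 2 (|w| choose 2)` for `|w| ≥ 2`, and `∑_{w ⊆ S} ∑_{j ∈ w} n_{w-j}² = ∑_{w' ⊆ S} (|S| - |w'|) n_{w'}² ≤ |S| M`. -/
def STS_stmt : Prop := ∀ (d : ℕ) (S : Finset (Fin d)) (n : Finset (Fin d) → ℝ), (∀ w, 0 ≤ n w) →
  2 * ∑ w ∈ S.powerset, ∑ j ∈ w, n w * n (w.erase j) ≤
    √S.card * ∑ w ∈ S.powerset, n w ^ 2 +
      2 * √(2 * ∑ w ∈ S.powerset, (w.card.choose 2 : ℝ) * n w ^ 2) * √(S.card * ∑ w ∈ S.powerset, n w ^ 2)

/-- YMQ (short). Proof. Both sides are `∑_{x ∈ U} (|x ∩ S| choose 2) f x²`: `x` is in the cell of `w = x ∩ S`, and it contains `(|x ∩ S| choose 2)` two-element subsets of `S`. -/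
def YMQ_stmt : Prop := ∀ (d : ℕ) (U : Fam d) (S : Finset (Fin d)) (f : Finset (Fin d) → ℝ),
  ∑ w ∈ S.powerset, (w.card.choose 2 : ℝ) * N (cel S w U) f = ∑ v ∈ S.powersetCard 2, mq U f v

/-- BST (medium; uses HZP CLA CLB UPA CLK CSZ ZB STS YMQ EIE, `HLR.CLE_stmt`, `HLR.SPL_stmt`). The induction step.
Proof. `kap ≤ 1/4` with `1/√(1-2kap) ≤ 1 + eta/4`, `S = Sc k kap U`, `s = |S| ≤ K/(1-2kap)`. All cells `Lc S w U`, `w ⊆ S`, satisfy `Le (h √d + C_B K/√d)`: `w` in the core: CLB with `tau = 0` (links: `insert i w` is not in the core for `i ∉ S`); `w` not in the core: CLA. `l = E U f` (EIE),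
SPL, CLE: `l ≤ h √d + C_B K/√d + 2 ∑_w ∑_{j∈w} n_w n_{w-j}`, `n_w = √(N (cel S w U) f)`, `∑ n_w² = 1`. STS, YMQ, ZB: the last term is `≤ √s + 2 √(2 Z) √s`, `Z ≤ C (1/K₀ + th)`. `C_B K/√d ≤ C_B √th √K`. Choose `K₀` large and `th` small: `C_B √th ≤ eta/4`,
`2 √(2 Z) ≤ eta/8`: `l ≤ h √d + (eta/4 + (1 + eta/4)(1 + eta/8)) √K ≤ h √d + (1 + eta) √K`. -/
def BST_stmt : Prop := ∀ (k : ℕ) (eta : ℝ), 1 ≤ k → 0 < eta → eta ≤ 1 → ∃ (K₀ th : ℝ) (d₀ : ℕ), 1 ≤ K₀ ∧ 0 < th ∧ ∀ d ≥ d₀,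
  ∀ (K : ℝ) (U : Fam d) (l : ℝ) (f : Finset (Fin d) → ℝ), K₀ ≤ K → K ≤ th * d → Dn U → (U.card : ℝ) ≤ K * (d.choose k : ℝ) →
  Eig U l f → hz (k + 1) * √d ≤ l → (∀ i, Le (lk i U) (l - √K / 4)) → l ≤ hz (k + 1) * √d + (1 + eta) * √K

/-- LNN (short). Proof. `Pool.Agent.helper9.HX.explicit` of `Pool/Agent/helper9/HX/Explicit.lean` with `d = m = n`: `m ≤ d + 1`. -/
def LNN_stmt : Prop := ∃ n₀ : ℕ, 1 ≤ n₀ ∧ ∀ n ≥ n₀, 0 ≤ lam n n ∧ lam n n ^ 2 = (n : ℝ) - 1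

/-- UBG (medium; uses `HQ.EV_stmt` ASA BST LNN). The upper bound for growing `K`.
Proof. `K₁, th, d₁` from BST, `n₀` from LNN, `K₀ = max K₁ (2 n₀ + 1000)`. `C*` = the maximum of the constants `C` of ASA for `1 ≤ K' ≤ K₀ + 1` and `d₀` at least all their `d₀` and `C*/√d ≤ 1/100`. Induction on `|U|` (for all `K` in the range). `U = ∅` clear; EV: `Eig U l f`. If
`l ≤ h √d + (1+eta) √K` done. Otherwise `l > h √d + (1+eta) √K`, and it is enough to show `Le (lk i U) (l - √K/4)` (then BST is a contradiction); enough: `Le (lk i U) (h √d + (3/4 + eta) √K)`. `2 |lk i U| ≤ |U|` (`DSC_card` in `Pool/Agent/helper77/HQ/DSC.lean`), `|lk i U| ≤ (K/2) b`, `lk i U` a down-set.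
If `K/2 ≥ K₀`: induction with `K/2` (`|lk i U| < |U|`), `(1+eta) √(K/2) ≤ (3/4 + eta) √K`. If `K/2 < K₀`: `n = ⌊K/2⌋ + 1`, `n₀ ≤ n ≤ K₀ + 1`, `|lk i U| ≤ n b`, ASA with `K' = n`: `Le (lk i U) (h √d + lam n n + C*/√d)` (`(n+1) b - |lk i U| ≥ b`), `lam n n ≤ √n ≤ √(K/2 + 1)`, and
`√(K/2 + 1) + 1/100 ≤ (3/4) √K` for `K ≥ 1000`. -/
def UBG_stmt : Prop := ∀ (k : ℕ) (eta : ℝ), 1 ≤ k → 0 < eta → eta ≤ 1 → ∃ (K₀ th : ℝ) (d₀ : ℕ), 1 ≤ K₀ ∧ 0 < th ∧ ∀ d ≥ d₀,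
  ∀ (K : ℝ) (U : Fam d), K₀ ≤ K → K ≤ th * d → Dn U → (U.card : ℝ) ≤ K * (d.choose k : ℝ) →
  Le U (hz (k + 1) * √d + (1 + eta) * √K)

/-- FNB (medium; uses HZP, `HQ.DC_stmt`, UBG, LBK, LNN). Part (b).
Proof. `eta ≤ 1` without loss. `K = m/b`. For large `d`, `m ≤ d b ≤ d^(k+1) ≤ 2 ^ d`. Upper bound: DC (`A.card = m = K b`) and UBG. Lower bound: `n = ⌊m/b⌋ ≥ n₀`, LBK with `K = n`, `D = d - n - k ≥ d/2`: `n (d-n).choose k ≤ n b ≤ m`; `lam n n = √(n-1)`;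
`lam d m ≥ h √D (1 - k/D) + √(n-1)`, `√D ≥ √d - (n+k)/√d`, `k/√D ≤ 2k/√d`, so `lam d m ≥ h √d - h (n + 3k)/√d + √(n-1)`; `n/√d ≤ √n √(n/d) ≤ √th √(m/b)`, `√(n-1) ≥ √(m/b - 2) ≥ √(m/b) - 2/√(m/b)`: choose `th` small and `K₀` large. -/
def FNB_stmt : Prop := ∀ (k : ℕ) (eta : ℝ), 1 ≤ k → 0 < eta → ∃ (K₀ th : ℝ) (d₀ : ℕ), 0 < K₀ ∧ 0 < th ∧ ∀ d ≥ d₀,
  ∀ m : ℕ, K₀ * (d.choose k : ℝ) ≤ m → (m : ℝ) ≤ th * d * (d.choose k : ℝ) →
  IsGreatest {t | ∃ U : Finset (V d), U.card = m ∧ IsTop U t} (lam d m) ∧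
  |lam d m - hz (k + 1) * √d - √(m / (d.choose k : ℝ))| ≤ eta * √(m / (d.choose k : ℝ))

end

end Pool.Agent.PLR
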