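import Pool.Agent.helper99.PLR.Spec
import Pool.Agent.helper9.HER.Upper
import Pool.Agent.helper9.HER.Lower

/-! # plr: row WTS -/

set_option autoImplicit false

open scoped Classical

namespace Pool.Agent.PLR

open Finset
open Pool.Agent.helper65.HC (V IsEig IsTop lam)
open Pool.Agent.helper9.HQ (Fam Dn E N Le Eig lk)

noncomputable section

theorem WTS_wt (k d j : ℕ) (hj : j ≤ k) : wt k d j = he j (hz (k + 1)) / √(d : ℝ) ^ j := by
  unfold wt
  rw [if_pos hj]

theorem WTS_up (hHZP : HZP_stmt) (k d j : ℕ) (hd : 0 < √(d : ℝ)) (hj : j + 1 ≤ k) :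
    (d : ℝ) * wt k d (j + 2) = he (j + 2) (hz (k + 1)) / √(d : ℝ) ^ j := by
  have hs : (d : ℝ) = √(d : ℝ) ^ 2 := (Real.sq_sqrt (Nat.cast_nonneg _)).symm
  rcases Nat.lt_or_ge k (j + 2) with h | h
  · have hk : k = j + 1 := by omega
    unfold wt
    rw [if_neg (by omega), mul_zero]
    have h0 := (hHZP k).1
    have e : he (j + 2) (hz (k + 1)) = he (k + 1) (hz (k + 1)) := by rw [hk]
    rw [e, h0, zero_div]
  · rw [WTS_wt k d (j + 2) h]
    have hne : √(d : ℝ) ≠ 0 := hd.ne'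
    rw [pow_add]
    nth_rewrite 1 [hs]
    field_simp

theorem WTS_choose (k d : ℕ) (hd : 2 * k + 1 ≤ d) :
    (d : ℝ) ^ k ≤ 2 ^ k * (k.factorial : ℝ) * (d.choose k : ℝ) := by
  have h1 := Pool.Agent.helper9.HER.pow_le_choose' k (d - k)
  have e : k + (d - k) = d := by omega
  rw [e] at h1
  have h2 : ((d - k + 1 : ℕ) : ℝ) ^ k ≤ (k.factorial : ℝ) * (d.choose k : ℝ) := by exact_mod_cast h1
  have h3 : (d : ℝ) ≤ 2 * ((d - k + 1 : ℕ) : ℝ) := by
    have : d ≤ 2 * (d - k + 1) := by omega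
    exact_mod_cast this
  calc (d : ℝ) ^ k ≤ (2 * ((d - k + 1 : ℕ) : ℝ)) ^ k := pow_le_pow_left₀ (Nat.cast_nonneg _) h3 k
    _ = 2 ^ k * ((d - k + 1 : ℕ) : ℝ) ^ k := by rw [mul_pow]
    _ ≤ 2 ^ k * ((k.factorial : ℝ) * (d.choose k : ℝ)) :=
        mul_le_mul_of_nonneg_left h2 (by positivity)
    _ = _ := by ring

theorem WTS (hHRM : HRM_stmt) (hHZP : HZP_stmt) : WTS_stmt := by
  intro k
  set h : ℝ := hz (k + 1) with hh
  obtain ⟨hzero, hnn, -, hpos⟩ := hHZP k
  rw [← hh] at hzero hnn hpos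
  set R : ℝ := ∑ j ∈ range (k + 1), he j h / he (j - 1) h with hR
  set Q : ℝ := ∑ j ∈ range (k + 1), he j h ^ 2 with hQ
  have hRj : ∀ j ≤ k, he j h / he (j - 1) h ≤ R := by
    intro j hj
    refine single_le_sum (f := fun j => he j h / he (j - 1) h) (fun i hi => ?_) (mem_range.2 (by omega))
    rw [mem_range] at hi
    exact (div_pos (hpos i (by omega)) (hpos (i - 1) (by omega))).le
  have hR0 : 0 ≤ R := sum_nonneg fun i hi => by
    rw [mem_range] at hi
    exact (div_pos (hpos i (by omega)) (hpos (i - 1) (by omega))).le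
  have hQ0 : 0 ≤ Q := sum_nonneg fun i hi => sq_nonneg _
  have hk := hpos k le_rfl
  refine ⟨he k h ^ 2 / (2 ^ k * (k.factorial : ℝ)), 1 + R + Q + he k h, by positivity, by positivity, ?_⟩
  intro d hd
  have hdpos : (0 : ℝ) < d := by
    have : 0 < d := by omega
    exact_mod_cast this
  have hs : 0 < √(d : ℝ) := Real.sqrt_pos.2 hdpos
  have hs2 : √(d : ℝ) ^ 2 = d := Real.sq_sqrt hdpos.le
  refine ⟨?_, ?_, ?_, ?_, ?_, ?_, ?_, ?_⟩
  · rw [WTS_wt k d 0 (Nat.zero_le _), hHRM.1, pow_zero, div_one]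
  · intro j hj
    rw [WTS_wt k d j hj]
    exact div_pos (hpos j hj) (pow_pos hs j)
  · intro j hj
    unfold wt
    rw [if_neg (by omega)]
  · intro j hj
    rcases j with _ | j
    · rw [Nat.cast_zero, zero_mul, zero_add, WTS_wt k d 0 hj, hHRM.1, pow_zero, div_one, mul_one]
      rcases Nat.eq_zero_or_pos k with hk0 | hk0
      · unfold wt
        rw [if_neg (by omega), mul_zero]
        have h1 : h = 0 := by
          have := hzero
          rw [hk0, zero_add, hHRM.2.1] at this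
          exact this
        rw [h1, zero_mul]
      · rw [WTS_wt k d (0 + 1) (by omega), zero_add, hHRM.2.1, pow_one, ← hh]
        nth_rewrite 1 [← hs2]
        field_simp
    · have e1 : j + 1 - 1 = j := rfl
      rw [e1, WTS_wt k d j (by omega), WTS_up hHZP k d j hs hj, WTS_wt k d (j + 1) hj, ← hh,
        hHRM.2.2 j h]
      push_cast
      rw [pow_succ]
      field_simp
      ring
  · intro j hj1 hj
    obtain ⟨i, rfl⟩ : ∃ i, j = i + 1 := ⟨j - 1, by omega⟩
    have e1 : i + 1 - 1 = i := rfl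
    have hi := hpos i (by omega)
    have h1 := hRj (i + 1) hj
    rw [e1] at h1
    have h2 : he (i + 1) h ≤ R * he i h := by
      rw [div_le_iff₀ hi] at h1
      exact h1
    rw [e1, WTS_wt k d (i + 1) hj, WTS_wt k d i (by omega), ← hh, pow_succ]
    have h3 : he (i + 1) h ≤ (1 + R + Q + he k h) * he i h := by
      refine h2.trans (mul_le_mul_of_nonneg_right ?_ hi.le)
      linarith
    rw [div_mul_div_comm, mul_comm (√(d : ℝ) ^ i) (√(d : ℝ))]
    exact div_le_div_of_nonneg_right h3 (by positivity)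
  · rw [WTS_wt k d k le_rfl, ← hh, div_pow, ← pow_mul, mul_comm k 2, pow_mul, hs2]
    have h1 := WTS_choose k d hd
    have h2 : (0 : ℝ) < (d : ℝ) ^ k := by positivity
    rw [mul_div_assoc', div_le_div_iff₀ (by positivity) h2]
    have h3 : 0 ≤ he k h ^ 2 := sq_nonneg _
    calc he k h ^ 2 * (d : ℝ) ^ k ≤ he k h ^ 2 * (2 ^ k * (k.factorial : ℝ) * (d.choose k : ℝ)) :=
          mul_le_mul_of_nonneg_left h1 h3
      _ = _ := by ring
  · rw [WTS_wt k d k le_rfl, ← hh]
    refine div_le_div_of_nonneg_right ?_ (by positivity)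
    linarith
  · unfold N
    have h1 : ∑ x ∈ ball k d, wt k d x.card ^ 2 =
        ∑ j ∈ range (k + 1), (d.choose j : ℝ) * wt k d j ^ 2 :=
      Pool.Agent.helper9.HER.sum_Bl d k (fun j => wt k d j ^ 2)
    rw [h1]
    have h2 : ∑ j ∈ range (k + 1), (d.choose j : ℝ) * wt k d j ^ 2 ≤ Q := by
      refine sum_le_sum fun j hj => ?_
      rw [mem_range] at hj
      rw [WTS_wt k d j (by omega), ← hh, div_pow, ← pow_mul, mul_comm j 2, pow_mul, hs2]
      have h3 : (d.choose j : ℝ) ≤ (d : ℝ) ^ j := by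
        exact_mod_cast Nat.choose_le_pow d j
      have h4 : (0 : ℝ) < (d : ℝ) ^ j := by positivity
      rw [mul_div_assoc', div_le_iff₀ h4, mul_comm]
      exact mul_le_mul_of_nonneg_left h3 (sq_nonneg _)
    linarith

end

end Pool.Agent.PLR
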