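import Pool.Agent.helper9.HLR.Main
import Pool.Agent.helper9.HER.Hermite
import Pool.Agent.helper32.HQ.EV
import Pool.Agent.helper99.PLR.Spec
import Pool.Agent.helper99.PLR.HRM
import Pool.Agent.helper99.PLR.WTS
import Pool.Agent.helper99.PLR.A1
import Pool.Agent.helper99.PLR.FNC
import Pool.Agent.helper92.PLR.GS
import Pool.Agent.helper64.PLR.GAP
import Pool.Agent.helper64.PLR.LNN
import Pool.Agent.helper68.PLR.BQ
import Pool.Agent.helper88.PLR.LCK
import Pool.Agent.helper88.PLR.LBK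
import Pool.Agent.helper77.PLR.DSK
import Pool.Agent.helper74.PLR.BIP
import Pool.Agent.helper69.PLR.CTK
import Pool.Agent.helper69.PLR.EIE
import Pool.Agent.helper69.PLR.BST
import Pool.Agent.helper48.PLR.CLA
import Pool.Agent.helper75.PLR.CLB
import Pool.Agent.helper18.PLR.UPA
import Pool.Agent.helper72.PLR.CLK
import Pool.Agent.helper72.PLR.CSZ
import Pool.Agent.helper72.PLR.ZB
import Pool.Agent.helper14.PLR.PRK
import Pool.Agent.helper22.PLR.CRA
import Pool.Agent.helper23.PLR.CBA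
import Pool.Agent.helper31.PLR.ASA
import Pool.Agent.helper9.PLR.FNA
import Pool.Agent.helper44.PLR.LCW
import Pool.Agent.helper79.PLR.STS
import Pool.Agent.helper85.PLR.YMQ
import Pool.Agent.helper93.PLR.UBG
import Pool.Agent.helper41.PLR.FNB

/-!
Assembly: the two terms of `λ_d(m)` in the polynomial range.
-/

set_option autoImplicit false

namespace Pool.Agent.PLR

open Pool.Agent.helper9

theorem HRM_greatest (k : ℕ) :
    IsGreatest {x : ℝ | Polynomial.aeval x (Polynomial.hermite (k + 1)) = 0}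
      (sSup {x : ℝ | Polynomial.aeval x (Polynomial.hermite (k + 1)) = 0}) := by
  obtain ⟨h, hT⟩ := HER.Top_exists k
  have h1 : IsGreatest {x : ℝ | Polynomial.aeval x (Polynomial.hermite (k + 1)) = 0} h :=
    HER.Top_greatest hT
  rw [h1.csSup_eq]
  exact h1

theorem main : FNC_stmt := by
  have hEMB : HX.EMB_stmt := HX.EMB HX.TRN
  have hEV : HQ.EV_stmt := HQ.EV
  have hHZP : HZP_stmt := HZP HRM
  have hWTS : WTS_stmt := WTS HRM hHZP
  have hGS : GS_stmt := GS hWTS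
  have hGAP : GAP_stmt := GAP hWTS hGS
  have hA1 : A1_stmt := A1 hWTS hGS hGAP
  have hBQ : BQ_stmt := BQ hWTS
  have hDSK : DSK_stmt := DSK hEV
  have hCLA : CLA_stmt := CLA hEV hHZP hA1 LCK hDSK BIP CTK
  have hCLB : CLB_stmt := CLB hEV hHZP hWTS hGS hGAP hA1 LCK BIP CTK hCLA
  have hCRA : CRA_stmt := CRA UPA PRK HLR.DSB
  have hCBA : CBA_stmt := CBA hCLA hCLB UPA CLK hCRA
  have hASA : ASA_stmt := ASA hCBA HLR.CLE HLR.SPL (HLR.QFM hEMB)
  have hLBK : LBK_stmt := LBK hBQ hWTS hEMB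
  have hCSZ : CSZ_stmt := CSZ UPA PRK
  have hZB : ZB_stmt := ZB hHZP hCLA UPA CLK LCW hCSZ
  have hBST : BST_stmt := BST hHZP hCLA hCLB UPA CLK hCSZ hZB STS YMQ EIE HLR.CLE HLR.SPL
  have hUBG : UBG_stmt := UBG hEV hASA hBST LNN
  have hFNA : FNA_stmt := FNA hHZP HQ.DC hASA hLBK
  have hFNB : FNB_stmt := FNB hHZP HQ.DC hUBG hLBK LNN
  exact FNC hFNA hFNB LNN

end Pool.Agent.PLR
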